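import Mathlib
import Pool.Agent.R987.Gold2

/-!
# A Markov chain which has no finitary coding with exponential tails from an iid process of the same
entropy

The chain has the states `false` and `true`; from `true` it always goes to `false`, and from
`false` it goes to `true` with probability `g²` and to `false` with probability `g`, where `g` is
the inverse of the golden mean, so that `g² + g = 1`. All words of length `n` which have positive
probability have probability `g^n`, up to a bounded factor. Its entropy rate is `-log g`.

If an iid process `Y` of the same entropy has a factor map onto the chain whose coding window has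
finite mean, then comparing the laws of `(Y_0, …, Y_{n-1})` and `(M_0, …, M_{n-1})` shows that the
sums of the centered informations `-log ν {Y_i} + log g` are bounded in `L¹`. By the martingale
convergence theorem these informations vanish, so that `Y_0` is uniformly distributed on a set with
`1 / g` elements; but `1 / g` is not an integer.
-/

set_option autoImplicit false

namespace Pool.Agent.Results.MP_207c40_pr.NoEntropyEqualCoding

open MeasureTheory ProbabilityTheory Set Filter Topology
open Pool.Agent.R987.Bern Pool.Agent.R987.Window
open scoped ENNReal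

/-- There is a stationary irreducible aperiodic Markov chain with two states and with exponential
return times such that no factor map onto it from an iid process of the same entropy has a coding
window with exponential tails; the expectation of the coding window is always infinite. -/
theorem result : ∃ (P : Matrix Bool Bool ℝ) (π : Bool → ℝ) (μ : Measure (ℤ → Bool)) (h : ℝ),
    IsStationaryChain P π μ ∧ IsErgodicMatrix P ∧ HasExpReturn μ ∧ HasEntropyRate μ h ∧
    ∀ (T : Type) [MeasurableSpace T] [StandardBorelSpace T] (ν : Measure T)
      [IsProbabilityMeasure ν], shannon ν = ENNReal.ofReal h →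
      ∀ φ : (ℤ → T) → ℤ → Bool, IsFactorMap ν μ φ →
        ¬ ExpCodingWindow ν φ ∧
        ∀ G : Set (ℤ → T), iid ℤ ν Gᶜ = 0 → ∑' r : ℕ, iid ℤ ν (Bad G φ r) = ⊤ := by
  refine ⟨Pool.Agent.R987.Gold.Pm, _, Pool.Agent.R987.Gold.law, _, Pool.Agent.R987.Gold.chain,
    Pool.Agent.R987.Gold.ergodic, Pool.Agent.R987.Gold.expReturn,
    Pool.Agent.R987.Gold.entropyRate, ?_⟩
  intro T _ _ ν _ hν φ hφ
  have key : ∀ G : Set (ℤ → T), iid ℤ ν Gᶜ = 0 → ∑' r : ℕ, iid ℤ ν (Bad G φ r) = ⊤ :=
    fun G hG => Pool.Agent.R987.Gold.no_factor ν hν φ hφ G hG
  refine ⟨?_, key⟩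
  rintro ⟨G, hG, C, c, hc, h⟩
  have h1 := key G hG
  have h2 : Summable fun r : ℕ => |C| * Real.exp (-c * r) := by
    refine Summable.mul_left _ ?_
    have h3 : Summable fun r : ℕ => Real.exp (-c) ^ r :=
      summable_geometric_of_lt_one (Real.exp_pos _).le (by rw [Real.exp_lt_one_iff]; linarith)
    refine h3.congr fun r => ?_
    rw [← Real.exp_nat_mul]
    congr 1
    ring
  have h3 : ∑' r : ℕ, ENNReal.ofReal (|C| * Real.exp (-c * r)) ≠ ⊤ := by
    rw [← ENNReal.ofReal_tsum_of_nonneg (fun r => by positivity) h2]
    exact ENNReal.ofReal_ne_top
  refine h3 (top_le_iff.1 ?_)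
  rw [← h1]
  refine ENNReal.tsum_le_tsum fun r => (h r).trans (ENNReal.ofReal_le_ofReal ?_)
  gcongr
  exact le_abs_self C

end Pool.Agent.Results.MP_207c40_pr.NoEntropyEqualCoding
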